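import Pool.Agent.H14R2.LL.Defs
import Pool.Agent.H14R2.LL.S.ROUNDH
import Pool.Agent.H275R2.TE.TEMAIN

/-! Task ITERH of the project LL: `O(log log n)` rounds -/

namespace LL14
open RC14 RC852 TE852 Finset Equiv Filter

namespace ITERHx

theorem good_anti {n m : ℕ} {c c' : ℝ} {k : ℕ} {y : Fin k → Alt n} (h : c ≤ c')
    (hg : Good1 n m c' y) : Good1 n m c y :=
  fun j h1 h2 v hv => (mul_le_mul_of_nonneg_right h (by positivity)).trans (hg j h1 h2 v hv)

theorem card_anti {n m : ℕ} {c c' : ℝ} {k : ℕ} (h : c ≤ c') :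
    (Nat.card {y : Fin k → Alt n // ¬ Good1 n m c y} : ℝ) ≤
      Nat.card {y : Fin k → Alt n // ¬ Good1 n m c' y} := by
  have : Nat.card {y : Fin k → Alt n // ¬ Good1 n m c y} ≤
      Nat.card {y : Fin k → Alt n // ¬ Good1 n m c' y} := by
    refine Nat.card_le_card_of_injective
      (fun y => ⟨y.1, fun hy => y.2 (good_anti h hy)⟩) ?_
    intro y z hyz
    exact Subtype.ext (congrArg (fun w : {y : Fin k → Alt n // ¬ Good1 n m c' y} => w.1) hyz)
  exact_mod_cast this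

/-- the largest admissible `G` -/
theorem exG (K : ℕ) (hK : K ≠ 0) (G0 n r : ℕ) (hG0 : 1 ≤ G0) (hr : 1 ≤ r) (h : r * G0 ^ K ≤ n) :
    ∃ G, G0 ≤ G ∧ r * G ^ K ≤ n ∧ n < r * (G + 1) ^ K := by
  classical
  have hex : ∃ G, n < r * (G + 1) ^ K := ⟨n, by
    calc n < n + 1 := Nat.lt_succ_self n
      _ ≤ (n + 1) ^ K := Nat.le_self_pow hK _
      _ ≤ r * (n + 1) ^ K := Nat.le_mul_of_pos_left _ hr⟩
  have h1 := Nat.find_spec hex
  have h0 : G0 ≤ Nat.find hex := by
    by_contra hlt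
    have h2 : Nat.find hex + 1 ≤ G0 := by omega
    have h3 : r * (Nat.find hex + 1) ^ K ≤ r * G0 ^ K :=
      Nat.mul_le_mul_left _ (Nat.pow_le_pow_left h2 _)
    omega
  refine ⟨Nat.find hex, h0, ?_, h1⟩
  have h4 := Nat.find_min hex (m := Nat.find hex - 1) (by omega)
  rw [Nat.sub_add_cancel (by omega)] at h4
  omega

/-- the state after `i` rounds -/
def St (D1 a0 R n : ℕ) (B c0 lam : ℝ) (i : ℕ) : Prop :=
  ∃ (a r : ℕ) (c : ℝ), 1 ≤ a ∧ a ≤ a0 + i * (1 + R * 2) ∧ (Real.log n) ^ 2 ≤ r ∧ 1 ≤ r ∧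
    2 * r + 2 ≤ n ∧ c0 / lam ^ i ≤ c ∧ 0 < c ∧ c ≤ 1 ∧
    (Nat.card {x : Fin a → Alt n // ¬ Good1 n r c x} : ℝ) ≤
      ((B + 2 * i) / n) * (Fintype.card (Alt n) : ℝ) ^ a ∧
    (n ≤ D1 * r ∨ Real.log (n / r) ≤ (63 / 64) ^ i * Real.log n)

theorem step {K : ℕ} (hK : K = 256) {G0 : ℕ} {lam : ℝ} (hlam : 1 ≤ lam) (hG0 : 3 ≤ G0)
    (hround : ∀ G : ℕ, G0 ≤ G → ∀ n r R : ℕ,
      (Real.log n) ^ 2 ≤ r → r * G ^ K ≤ n → 33 * Real.log n ≤ 2 ^ R * Real.log G → R ≤ n →
      ∀ a : ℕ, 1 ≤ a → ∀ c : ℝ, 0 < c → c ≤ 1 → ∀ p : ℝ, 0 ≤ p →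
      (Nat.card {x : Fin a → Alt n // ¬ Good1 n r c x} : ℝ) ≤
        p * (Fintype.card (Alt n) : ℝ) ^ a →
      (Nat.card {y : Fin (a + (1 + R * 2)) → Alt n // ¬ Good1 n (r * G ^ 8) (c / lam) y} : ℝ) ≤
        (p + 2 / (n : ℝ)) * (Fintype.card (Alt n) : ℝ) ^ (a + (1 + R * 2)))
    {D1 a0 R n : ℕ} {B c0 : ℝ} (hD : G0 ^ K ≤ D1) (hB : 0 ≤ B) (hc0 : 0 < c0)
    (hR : 33 * Real.log n ≤ 2 ^ R) (hRn : R ≤ n) (i : ℕ)
    (h : St D1 a0 R n B c0 lam i) : St D1 a0 R n B c0 lam (i + 1) := by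
  obtain ⟨a, r, c, ha1, ha, hlr, hr1, hrn, hc, hc0', hc1, hcard, hor⟩ := h
  have hn0 : (0 : ℝ) < n := by
    have : 0 < n := by omega
    exact_mod_cast this
  have hlam0 : (0 : ℝ) < lam := by linarith
  by_cases hcase : n ≤ D1 * r
  · refine ⟨a, r, c, ha1, ?_, hlr, hr1, hrn, ?_, hc0', hc1, ?_, Or.inl hcase⟩
    · have : i * (1 + R * 2) ≤ (i + 1) * (1 + R * 2) := Nat.mul_le_mul_right _ (by omega)
      omega
    · refine le_trans ?_ hc
      exact div_le_div_of_nonneg_left hc0.le (by positivity)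
        (pow_le_pow_right₀ hlam (by omega))
    · refine hcard.trans (mul_le_mul_of_nonneg_right ?_ (by positivity))
      apply div_le_div_of_nonneg_right _ hn0.le
      push_cast
      linarith
  · have hlogn : Real.log (n / r) ≤ (63 / 64) ^ i * Real.log n := hor.resolve_left hcase
    have hlt : D1 * r < n := not_le.mp hcase
    obtain ⟨G, hG, hG1, hG2⟩ := exG K (by omega) G0 n r (by omega) hr1 (by
      calc r * G0 ^ K = G0 ^ K * r := mul_comm _ _
        _ ≤ D1 * r := Nat.mul_le_mul_right _ hD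
        _ ≤ n := hlt.le)
    have hG3 : 3 ≤ G := hG0.trans hG
    have hGR : (3 : ℝ) ≤ G := by exact_mod_cast hG3
    have hGp : (0 : ℝ) < G := by linarith
    have hlogG : 1 ≤ Real.log G := by
      rw [Real.le_log_iff_exp_le hGp]
      have := Real.exp_one_lt_d9
      linarith
    have hrR : (1 : ℝ) ≤ r := by exact_mod_cast hr1
    have hrp : (0 : ℝ) < r := by linarith
    have hG8 : 1 ≤ G ^ 8 := Nat.one_le_pow _ _ (by omega)
    have h33 : 33 * Real.log n ≤ 2 ^ R * Real.log G := by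
      refine hR.trans ?_
      have : (0 : ℝ) ≤ 2 ^ R := by positivity
      nlinarith
    have hmain := hround G hG n r R hlr hG1 h33 hRn a ha1 c hc0' hc1 ((B + 2 * i) / n)
      (by positivity) hcard
    refine ⟨a + (1 + R * 2), r * G ^ 8, c / lam, by omega, ?_, ?_, ?_, ?_, ?_, by positivity, ?_,
      ?_, Or.inr ?_⟩
    · have : (i + 1) * (1 + R * 2) = i * (1 + R * 2) + (1 + R * 2) := by ring
      omega
    · refine hlr.trans ?_
      have : r ≤ r * G ^ 8 := Nat.le_mul_of_pos_right _ hG8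
      exact_mod_cast this
    · exact Nat.mul_pos hr1 hG8
    · obtain ⟨K', hK'⟩ : ∃ K', K' = 248 := ⟨_, rfl⟩
      have e : r * G ^ K = r * G ^ 8 * G ^ K' := by
        rw [mul_assoc, ← pow_add, hK', hK]
      have h1 : 4 ≤ G ^ K' := by
        calc 4 ≤ G ^ 2 := by nlinarith
          _ ≤ G ^ K' := Nat.pow_le_pow_right (by omega) (by omega)
      have h2 : r * G ^ 8 * 4 ≤ r * G ^ 8 * G ^ K' := Nat.mul_le_mul_left _ h1
      have h3 : 1 ≤ r * G ^ 8 := Nat.mul_pos hr1 hG8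
      rw [e] at hG1
      omega
    · rw [pow_succ, ← div_div]
      exact div_le_div_of_nonneg_right hc hlam0.le
    · exact (div_le_self hc0'.le hlam).trans hc1
    · refine hmain.trans (le_of_eq ?_)
      congr 1
      push_cast
      ring
    · have h1 : (n : ℝ) / r ≤ ((G : ℝ) + 1) ^ K := by
        rw [div_le_iff₀ hrp]
        have : (n : ℝ) ≤ r * ((G : ℝ) + 1) ^ K := by exact_mod_cast hG2.le
        linarith
      have h2 : Real.log (n / r) ≤ 256 * Real.log ((G : ℝ) + 1) := by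
        have := Real.log_le_log (by positivity) h1
        rw [Real.log_pow] at this
        have hKR : (K : ℝ) = 256 := by rw [hK]; norm_num
        rw [hKR] at this
        exact this
      have h3 : Real.log ((G : ℝ) + 1) ≤ 2 * Real.log G := by
        have h4 : (G : ℝ) + 1 ≤ (G : ℝ) ^ 2 := by nlinarith
        have := Real.log_le_log (by positivity) h4
        rw [Real.log_pow] at this
        exact_mod_cast this
      have h5 : Real.log ((n : ℝ) / ((r * G ^ 8 : ℕ) : ℝ)) = Real.log (n / r) - 8 * Real.log G := by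
        push_cast
        rw [← div_div, Real.log_div (by positivity) (by positivity), Real.log_pow]
        norm_num
      rw [h5, pow_succ]
      nlinarith

theorem iter {K : ℕ} (hK : K = 256) {G0 : ℕ} {lam : ℝ} (hlam : 1 ≤ lam) (hG0 : 3 ≤ G0)
    (hround : ∀ G : ℕ, G0 ≤ G → ∀ n r R : ℕ,
      (Real.log n) ^ 2 ≤ r → r * G ^ K ≤ n → 33 * Real.log n ≤ 2 ^ R * Real.log G → R ≤ n →
      ∀ a : ℕ, 1 ≤ a → ∀ c : ℝ, 0 < c → c ≤ 1 → ∀ p : ℝ, 0 ≤ p →
      (Nat.card {x : Fin a → Alt n // ¬ Good1 n r c x} : ℝ) ≤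
        p * (Fintype.card (Alt n) : ℝ) ^ a →
      (Nat.card {y : Fin (a + (1 + R * 2)) → Alt n // ¬ Good1 n (r * G ^ 8) (c / lam) y} : ℝ) ≤
        (p + 2 / (n : ℝ)) * (Fintype.card (Alt n) : ℝ) ^ (a + (1 + R * 2)))
    {D1 a0 R n : ℕ} {B c0 : ℝ} (hD : G0 ^ K ≤ D1) (hB : 0 ≤ B) (hc0 : 0 < c0)
    (hR : 33 * Real.log n ≤ 2 ^ R) (hRn : R ≤ n)
    (h : St D1 a0 R n B c0 lam 0) (i : ℕ) : St D1 a0 R n B c0 lam i := by
  induction i with
  | zero => exact h
  | succ i ih => exact step hK hlam hG0 hround hD hB hc0 hR hRn i ih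

/-- the beginning -/
theorem start (a0 : ℕ) (ha0 : 1 ≤ a0) (c0 : ℝ) (hc0 : 0 < c0) (B : ℝ)
    (h : ∀ᶠ n : ℕ in atTop, (Nat.card {x : Fin a0 → Alt n // ¬ Good1 n (Rr (1 / 2) n) c0 x} : ℝ) ≤
      B / (n : ℝ) * (Fintype.card (Alt n) : ℝ) ^ a0) (D1 : ℕ) (lam : ℝ) :
    ∀ᶠ n : ℕ in atTop, ∀ R : ℕ, St D1 a0 R n B (min c0 1) lam 0 := by
  have h1 : ∀ᶠ x : ℝ in atTop, (Real.log x) ^ 2 + 1 ≤ x ^ (1 / 2 : ℝ) := by
    have e1 := isLittleO_log_rpow_rpow_atTop (2 : ℝ) (show (0 : ℝ) < 1 / 2 by norm_num)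
    have e2 := e1.bound (show (0 : ℝ) < 1 / 2 by norm_num)
    have e3 : ∀ᶠ x : ℝ in atTop, (2 : ℝ) ≤ x ^ (1 / 2 : ℝ) :=
      (tendsto_rpow_atTop (show (0 : ℝ) < 1 / 2 by norm_num)).eventually_ge_atTop 2
    filter_upwards [e2, e3, eventually_ge_atTop 1] with x h2 h3 h4
    have h5 : 0 ≤ Real.log x := Real.log_nonneg h4
    rw [Real.norm_of_nonneg (by positivity), Real.norm_of_nonneg (by positivity),
      Real.rpow_two] at h2
    linarith
  have h2 := (tendsto_natCast_atTop_atTop (R := ℝ)).eventually h1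
  filter_upwards [h, h2, eventually_ge_atTop 16] with n hn1 hn2 hn3
  intro R
  have hn16 : (16 : ℝ) ≤ n := by exact_mod_cast hn3
  have hn0 : (0 : ℝ) < n := by linarith
  have hfl : (n : ℝ) ^ (1 / 2 : ℝ) < Rr (1 / 2) n + 1 := Nat.lt_floor_add_one _
  have hfl2 : (Rr (1 / 2) n : ℝ) ≤ (n : ℝ) ^ (1 / 2 : ℝ) := Nat.floor_le (by positivity)
  have hsq : (n : ℝ) ^ (1 / 2 : ℝ) = Real.sqrt n := (Real.sqrt_eq_rpow _).symm
  have hs4 : 4 ≤ Real.sqrt n := by
    rw [show (4 : ℝ) = Real.sqrt 16 by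
      rw [show (16 : ℝ) = 4 ^ 2 by norm_num, Real.sqrt_sq (by norm_num)]]
    exact Real.sqrt_le_sqrt hn16
  have hss : Real.sqrt n * Real.sqrt n = n := Real.mul_self_sqrt hn0.le
  have hr1 : 1 ≤ Rr (1 / 2) n := by
    have : (0 : ℝ) < Rr (1 / 2) n := by
      rw [hsq] at hfl; linarith
    exact_mod_cast this
  refine ⟨a0, Rr (1 / 2) n, min c0 1, ha0, by omega, by linarith, hr1, ?_, ?_, lt_min hc0 one_pos,
    min_le_right _ _, ?_, Or.inr ?_⟩
  · have : (2 : ℝ) * Rr (1 / 2) n + 2 ≤ n := by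
      rw [hsq] at hfl2
      nlinarith
    exact_mod_cast this
  · simp
  · refine (card_anti (min_le_left _ _)).trans (hn1.trans (le_of_eq ?_))
    simp
  · rw [pow_zero, one_mul]
    have hrR : (1 : ℝ) ≤ Rr (1 / 2) n := by exact_mod_cast hr1
    exact Real.log_le_log (by positivity) (div_le_self hn0.le hrR)

end ITERHx

open ITERHx in
/-- after `O(log log n)` rounds -/
theorem ITERH : ∃ D1 : ℕ, 100 ≤ D1 ∧ ∃ C : ℝ, 0 < C ∧ ∀ᶠ n : ℕ in atTop,
    ∃ (a r : ℕ) (c : ℝ), 1 ≤ a ∧ (a : ℝ) ≤ C * (Real.log (Real.log n)) ^ 2 ∧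
      n ≤ D1 * r ∧ 2 * r + 2 ≤ n ∧ 0 < c ∧ c ≤ 1 ∧ (Real.log n) ^ (-C) ≤ c ∧
      (Nat.card {x : Fin a → Alt n // ¬ Good1 n r c x} : ℝ) ≤
        1 / (2 * Real.sqrt n) * (Fintype.card (Alt n) : ℝ) ^ a := by
  obtain ⟨G0, lam, hlam, hround⟩ := ROUNDH
  obtain ⟨a0, ha0, c0, hc0, B, hB, hev⟩ := TEMAIN' (1 / 2) (by norm_num)
  obtain ⟨G1, hG1⟩ : ∃ G1, G1 = max G0 3 := ⟨_, rfl⟩
  have hG13 : 3 ≤ G1 := by rw [hG1]; exact le_max_right _ _
  have hG10 : G0 ≤ G1 := by rw [hG1]; exact le_max_left _ _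
  obtain ⟨c1, hc1⟩ : ∃ c1, c1 = min c0 1 := ⟨_, rfl⟩
  have hc1p : 0 < c1 := by rw [hc1]; exact lt_min hc0 one_pos
  have hlam0 : (0 : ℝ) < lam := by linarith
  have hloglam : 0 ≤ Real.log lam := Real.log_nonneg hlam
  refine ⟨max 100 (G1 ^ 256), le_max_left _ _, 456 + 65 * Real.log lam, by positivity, ?_⟩
  have hst := start a0 ha0 c0 hc0 B hev (max 100 (G1 ^ 256)) lam
  have hll : Tendsto (fun n : ℕ => Real.log (Real.log (n : ℝ))) atTop atTop :=
    Real.tendsto_log_atTop.comp (Real.tendsto_log_atTop.comp tendsto_natCast_atTop_atTop)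
  have e1 := hll.eventually_ge_atTop (max (max 10 (a0 : ℝ)) (max B (-Real.log c1)))
  have e2 : ∀ᶠ n : ℕ in atTop, 262 * Real.log (Real.log (n : ℝ)) ≤ Real.sqrt n := by
    have f1 : ∀ᶠ x : ℝ in atTop, Real.log x * 262 ≤ x ^ (1 / 2 : ℝ) := by
      have g1 := isLittleO_log_rpow_atTop (show (0 : ℝ) < 1 / 2 by norm_num)
      have g2 := g1.bound (show (0 : ℝ) < 1 / 262 by norm_num)
      filter_upwards [g2, eventually_ge_atTop 1] with x h2 h4
      rw [Real.norm_of_nonneg (Real.log_nonneg h4), Real.norm_of_nonneg (by positivity)] at h2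
      linarith
    have f2 := (tendsto_natCast_atTop_atTop (R := ℝ)).eventually f1
    have f3 : ∀ᶠ n : ℕ in atTop, (1 : ℝ) ≤ Real.log (n : ℝ) :=
      (Real.tendsto_log_atTop.comp tendsto_natCast_atTop_atTop).eventually_ge_atTop 1
    filter_upwards [f2, f3] with n h2 h3
    rw [← Real.sqrt_eq_rpow] at h2
    have : Real.log (Real.log n) ≤ Real.log n :=
      (Real.log_le_sub_one_of_pos (by linarith)).trans (by linarith)
    linarith
  filter_upwards [hst, e1, e2, eventually_ge_atTop 16] with n hn1 hn2 hn3 hn4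
  set y : ℝ := Real.log (Real.log n) with hy
  have hy10 : 10 ≤ y := (le_max_left _ _).trans ((le_max_left _ _).trans hn2)
  have hya : (a0 : ℝ) ≤ y := (le_max_right _ _).trans ((le_max_left _ _).trans hn2)
  have hyB : B ≤ y := (le_max_left _ _).trans ((le_max_right _ _).trans hn2)
  have hyc : -Real.log c1 ≤ y := (le_max_right _ _).trans ((le_max_right _ _).trans hn2)
  have hn16 : (16 : ℝ) ≤ n := by exact_mod_cast hn4
  have hn0 : (0 : ℝ) < n := by linarith
  have hlog1 : 1 < Real.log n := by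
    by_contra hcon
    have h1 : Real.log n ≤ 1 := not_lt.mp hcon
    have h2 : 0 ≤ Real.log n := Real.log_nonneg (by linarith)
    have := Real.log_nonpos h2 h1
    linarith
  have hlog0 : 0 < Real.log n := by linarith
  have hexpy : Real.log n = Real.exp y := by rw [hy, Real.exp_log hlog0]
  -- the number of letters per round
  obtain ⟨R, hR⟩ : ∃ R : ℕ, R = ⌈2 * y + 8⌉₊ := ⟨_, rfl⟩
  have hR1 : 2 * y + 8 ≤ R := by rw [hR]; exact Nat.le_ceil _
  have hR2 : (R : ℝ) ≤ 3 * y := by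
    have : (R : ℝ) < 2 * y + 8 + 1 := by rw [hR]; exact Nat.ceil_lt_add_one (by linarith)
    linarith
  have hsq1 : Real.sqrt n ≤ n := by
    have h1 : Real.sqrt n * Real.sqrt n = n := Real.mul_self_sqrt hn0.le
    have h2 : 1 ≤ Real.sqrt n := by linarith
    nlinarith
  have hRn : R ≤ n := by
    have : (R : ℝ) ≤ n := by linarith
    exact_mod_cast this
  have h33 : 33 * Real.log n ≤ 2 ^ R := by
    have h1 : (2 : ℝ) ^ R = Real.exp (R * Real.log 2) := by
      rw [mul_comm, Real.exp_mul, Real.exp_log (by norm_num), Real.rpow_natCast]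
    have h2 : (33 : ℝ) ≤ Real.exp 4 := by
      have h3 : (2.7 : ℝ) ≤ Real.exp 1 := by
        have := Real.exp_one_gt_d9
        linarith
      have h4 : Real.exp 4 = Real.exp 1 ^ 4 := by rw [← Real.exp_nat_mul]; norm_num
      rw [h4]
      calc (33 : ℝ) ≤ 2.7 ^ 4 := by norm_num
        _ ≤ Real.exp 1 ^ 4 := pow_le_pow_left₀ (by norm_num) h3 4
    rw [h1, hexpy]
    have h5 : 4 + y ≤ R * Real.log 2 := by
      have := Real.log_two_gt_d9
      nlinarith
    calc 33 * Real.exp y ≤ Real.exp 4 * Real.exp y :=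
          mul_le_mul_of_nonneg_right h2 (Real.exp_pos _).le
      _ = Real.exp (4 + y) := (Real.exp_add _ _).symm
      _ ≤ _ := Real.exp_le_exp.mpr h5
  -- the number of rounds
  obtain ⟨N, hN⟩ : ∃ N : ℕ, N = ⌈64 * y⌉₊ := ⟨_, rfl⟩
  have hN1 : 64 * y ≤ N := by rw [hN]; exact Nat.le_ceil _
  have hN2 : (N : ℝ) ≤ 65 * y := by
    have : (N : ℝ) < 64 * y + 1 := by rw [hN]; exact Nat.ceil_lt_add_one (by linarith)
    linarith
  have hround' := fun G (hG : G1 ≤ G) => hround G (hG10.trans hG)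
  obtain ⟨a, r, c, ha1, ha, -, hr1, hrn, hc, hc0', hcle, hcard, hor⟩ :=
    iter (K := 256) rfl hlam hG13 hround' (le_max_right 100 (G1 ^ 256)) hB hc1p h33 hRn
      (by rw [hc1]; exact hn1 R) N
  refine ⟨a, r, c, ha1, ?_, ?_, hrn, hc0', hcle, ?_, ?_⟩
  · have h1 : (a : ℝ) ≤ a0 + N * (1 + R * 2) := by exact_mod_cast ha
    have h2 : (N : ℝ) * (1 + R * 2) ≤ 65 * y * (1 + 3 * y * 2) := by
      apply mul_le_mul hN2 (by linarith) (by positivity) (by linarith)
    have h3 : 0 ≤ Real.log lam * y ^ 2 := by positivity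
    nlinarith
  · rcases hor with h | h
    · exact h
    · by_contra hcon
      have h1 : max 100 (G1 ^ 256) * r < n := not_le.mp hcon
      have h2 : 100 * r ≤ n := (Nat.mul_le_mul_right _ (le_max_left _ _)).trans h1.le
      have hrp : (0 : ℝ) < r := by exact_mod_cast hr1
      have h3 : (100 : ℝ) ≤ n / r := by
        rw [le_div_iff₀ hrp]
        exact_mod_cast h2
      have h4 : 1 < Real.log (n / r) := by
        rw [Real.lt_log_iff_exp_lt (by positivity)]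
        have := Real.exp_one_lt_d9
        linarith
      have h5 : ((63 : ℝ) / 64) ^ N * Real.log n ≤ 1 := by
        have g1 : ((63 : ℝ) / 64) ^ N = Real.exp (N * Real.log (63 / 64)) := by
          rw [mul_comm, Real.exp_mul, Real.exp_log (by norm_num), Real.rpow_natCast]
        have g2 : Real.log (63 / 64) ≤ -(1 / 64) := by
          have := Real.log_le_sub_one_of_pos (show (0 : ℝ) < 63 / 64 by norm_num)
          linarith
        rw [g1, hexpy, ← Real.exp_add]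
        apply Real.exp_le_one_iff.mpr
        have g3 : (N : ℝ) * Real.log (63 / 64) ≤ N * (-(1 / 64)) :=
          mul_le_mul_of_nonneg_left g2 (Nat.cast_nonneg _)
        linarith
      linarith
  · refine le_trans ?_ hc
    have g1 : lam ^ N = Real.exp (N * Real.log lam) := by
      rw [mul_comm, Real.exp_mul, Real.exp_log hlam0, Real.rpow_natCast]
    rw [g1, hexpy, ← Real.exp_mul]
    have g0 : c1 = Real.exp (Real.log c1) := (Real.exp_log hc1p).symm
    rw [g0, ← Real.exp_sub]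
    apply Real.exp_le_exp.mpr
    have g2 : (N : ℝ) * Real.log lam ≤ 65 * y * Real.log lam :=
      mul_le_mul_of_nonneg_right hN2 hloglam
    nlinarith
  · refine hcard.trans (mul_le_mul_of_nonneg_right ?_ (by positivity))
    have hs0 : 0 < Real.sqrt n := Real.sqrt_pos.mpr hn0
    have hss : Real.sqrt n * Real.sqrt n = n := Real.mul_self_sqrt hn0.le
    rw [div_le_div_iff₀ hn0 (by positivity)]
    have h1 : B + 2 * (N : ℝ) ≤ 131 * y := by linarith
    nlinarith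

end LL14
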